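import Pool.Agent.W477.GM.Stms

/-!
# Project GM: the action of the automorphisms on names
-/

set_option linter.all false
set_option maxHeartbeats 1000000

namespace Pool.Agent.W977.GM.Act

open Pool.Agent.W477.GM

variable {P : Type 1} [PartialOrder P] [OrderTop P]

omit [OrderTop P] in
theorem lab_act (g : P ≃o P) (U : P → Prop) (q : P) :
    Lab (fun u => U (g.symm u)) q ↔ Lab U (g.symm q) := by
  constructor
  · rintro ⟨u, hu, hq⟩
    exact ⟨g.symm u, hu, g.symm.monotone hq⟩
  · rintro ⟨u, hu, hq⟩
    refine ⟨g u, ?_, ?_⟩
    · show U (g.symm (g u))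
      rw [g.symm_apply_apply]
      exact hu
    · exact g.symm_apply_le.mp hq

theorem act_one' (x : Nm P) : act 1 x = x := by
  induction x with
  | mk ι U x ih =>
    simp only [act]
    congr 1
    funext i
    exact ih i

theorem act_mul' (g h : P ≃o P) (x : Nm P) : act (g * h) x = act g (act h x) := by
  induction x with
  | mk ι U x ih =>
    simp only [act]
    congr 1
    funext i
    exact ih i

theorem feq_act (g : P ≃o P) (x : Nm P) : ∀ (y : Nm P) (p : P), feq x y p →
    feq (act g x) (act g y) (g p) := by
  induction x with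
  | mk ι U x ih =>
    intro y p h
    cases y with
    | mk κ W y =>
      simp only [act, feq] at h ⊢
      constructor
      · intro i q hq hl
        rw [lab_act] at hl
        have hq' : g.symm q ≤ p := g.symm_apply_le.mpr hq
        obtain ⟨r, hr, j, hj, hf⟩ := h.1 i (g.symm q) hq' hl
        refine ⟨g r, ?_, j, ?_, ih i (y j) r hf⟩
        · exact g.le_symm_apply.mp hr
        · rw [lab_act, g.symm_apply_apply]
          exact hj
      · intro j q hq hl
        rw [lab_act] at hl
        have hq' : g.symm q ≤ p := g.symm_apply_le.mpr hq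
        obtain ⟨r, hr, i, hi, hf⟩ := h.2 j (g.symm q) hq' hl
        refine ⟨g r, ?_, i, ?_, ih i (y j) r hf⟩
        · exact g.le_symm_apply.mp hr
        · rw [lab_act, g.symm_apply_apply]
          exact hi

theorem fmem_act (g : P ≃o P) (x y : Nm P) (p : P) (h : fmem x y p) :
    fmem (act g x) (act g y) (g p) := by
  cases y with
  | mk κ W y =>
    simp only [act, fmem] at h ⊢
    intro q hq
    have hq' : g.symm q ≤ p := g.symm_apply_le.mpr hq
    obtain ⟨r, hr, j, hj, hf⟩ := h (g.symm q) hq'
    refine ⟨g r, ?_, j, ?_, feq_act g x (y j) r hf⟩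
    · exact g.le_symm_apply.mp hr
    · rw [lab_act, g.symm_apply_apply]
      exact hj

theorem inv_back (g : P ≃o P) (x : Nm P) : act g⁻¹ (act g x) = x := by
  rw [← act_mul', inv_mul_cancel, act_one']

theorem inv_pt (g : P ≃o P) (p : P) : (g⁻¹ : P ≃o P) (g p) = p := g.symm_apply_apply p

theorem loc' (g h : P ≃o P) (x : Nm P) : ∀ p : P, (∀ q, q ≤ p → g.symm q = h.symm q) →
    feq (act g x) (act h x) p := by
  induction x with
  | mk ι U x ih =>
    intro p hp
    simp only [act, feq]
    constructor
    · intro i q hq hl
      rw [lab_act] at hl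
      refine ⟨q, le_rfl, i, ?_, ih i q fun s hs => hp s (hs.trans hq)⟩
      rw [lab_act, ← hp q hq]
      exact hl
    · intro i q hq hl
      rw [lab_act] at hl
      refine ⟨q, le_rfl, i, ?_, ih i q fun s hs => hp s (hs.trans hq)⟩
      rw [lab_act, hp q hq]
      exact hl

theorem rk_act (g : P ≃o P) (x : Nm P) : rk (act g x) = rk x := by
  induction x with
  | mk ι U x ih =>
    simp only [act, rk]
    exact congrArg _ (funext fun i => congrArg _ (ih i))

theorem top_lab (g : P ≃o P) : (fun u : P => g.symm u = ⊤) = fun u : P => u = ⊤ := by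
  funext u
  exact propext (map_eq_top_iff g.symm)

theorem pr_act (g : P ≃o P) (x y : Nm P) : act g (prN x y) = prN (act g x) (act g y) := by
  unfold prN
  simp only [act]
  congr 1
  · funext i
    exact top_lab g
  · funext b
    cases b <;> rfl

theorem chk_act (g : P ≃o P) (a : PSet.{0}) : act g (chk a : Nm P) = chk a := by
  induction a with
  | mk α A ih =>
    simp only [chk, act]
    congr 1
    · funext i
      exact top_lab g
    · funext i
      exact ih i

theorem act_holds (_h : P_EQ) : P_ACT := by
  intro P _ _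
  refine ⟨act_one', act_mul', ?_, ?_, loc', rk_act, ?_, chk_act⟩
  · intro g x y p
    refine ⟨fun h => ?_, feq_act g x y p⟩
    have h1 := feq_act g⁻¹ _ _ _ h
    rw [inv_back, inv_back, inv_pt] at h1
    exact h1
  · intro g x y p
    refine ⟨fun h => ?_, fmem_act g x y p⟩
    have h1 := fmem_act g⁻¹ _ _ _ h
    rw [inv_back, inv_back, inv_pt] at h1
    exact h1
  · intro g x y
    unfold opN
    rw [pr_act, pr_act, pr_act]

end Pool.Agent.W977.GM.Act
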